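import Pool.Agent.Helper10.SP.GoalsC
import Pool.Agent.Helper64.SP.KHOL

set_option autoImplicit false

/-! # PARB: basics on local parametrizations and the action -/

open Complex Metric Set Filter Topology MeasureTheory
open scoped ContDiff ComplexConjugate ComplexOrder Manifold

namespace Pool.Agent.Helper4.SP

open Pool.Agent.Helper95.Lin Pool.Agent.Helper16.Abund Pool.Agent.Helper92.Orb
open Pool.Agent.Helper10.SP

universe u v

section basics

variable {n : ℕ} {M : Type v} [TopologicalSpace M] [ChartedSpace (Fin n → ℂ) M]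

/-- The restriction of a local parametrization. -/
theorem par_mono {V U : Set (Cn n)} {ψ : Cn n → M} (h : Par n ψ V) (hU : IsOpen U)
    (hUV : U ⊆ V) : Par n ψ U :=
  ⟨⟨hU, h.1.2.mono hUV⟩, fun z hz => h.2 z (hUV hz)⟩

variable [IsManifold 𝓘(ℂ, Fin n → ℂ) ω M]

/-- A local parametrization is locally a homeomorphism: near `z` it is `e` read in the chart. -/
theorem par_local {V : Set (Cn n)} {ψ : Cn n → M} (h : Par n ψ V) {z : Cn n} (hz : z ∈ V) :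
    ∃ e : OpenPartialHomeomorph (Cn n) (Cn n), z ∈ e.source ∧ e.source ⊆ V ∧
      (∀ x ∈ e.source, ψ x ∈ (chartAt (Fin n → ℂ) (ψ z)).source) ∧
      (∀ x, e x = chartAt (Fin n → ℂ) (ψ z) (ψ x)) := by
  obtain ⟨⟨hV, hm⟩, hj⟩ := h
  set χ := chartAt (Fin n → ℂ) (ψ z) with hχ
  have hc : ContinuousOn ψ V := hm.continuousOn
  have hU : IsOpen (V ∩ ψ ⁻¹' χ.source) := hc.isOpen_inter_preimage hV χ.open_source
  have hmF : ∀ y ∈ V ∩ ψ ⁻¹' χ.source,
      MDifferentiableAt 𝓘(ℂ, Fin n → ℂ) 𝓘(ℂ, Fin n → ℂ) (χ ∘ ψ) y := by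
    intro y hy
    exact ((mdiff_chart (ψ z)).mdifferentiableAt (χ.open_source.mem_nhds hy.2)).comp y
      (hm.mdifferentiableAt (hV.mem_nhds hy.1))
  have hF : DifferentiableOn ℂ (χ ∘ ψ) (V ∩ ψ ⁻¹' χ.source) := fun y hy =>
    (mdifferentiableAt_iff_differentiableAt.1 (hmF y hy)).differentiableWithinAt
  have hdet : ∀ y ∈ V ∩ ψ ⁻¹' χ.source, (fderiv ℂ (χ ∘ ψ) y).det ≠ 0 := by
    intro y hy
    rw [← jac_eq_fderiv, jac_comp ((mdiff_chart (ψ z)).mdifferentiableAt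
      (χ.open_source.mem_nhds hy.2)) (hm.mdifferentiableAt (hV.mem_nhds hy.1))]
    refine mul_ne_zero ?_ (hj y hy.1)
    have hs : MDifferentiableAt 𝓘(ℂ, Fin n → ℂ) 𝓘(ℂ, Fin n → ℂ) χ.symm
        (χ (ψ y)) :=
      (mdiff_chart_symm (ψ z)).mdifferentiableAt (χ.open_target.mem_nhds (χ.map_source hy.2))
    have h1 : MDifferentiableAt 𝓘(ℂ, Fin n → ℂ) 𝓘(ℂ, Fin n → ℂ) χ (ψ y) :=
      (mdiff_chart (ψ z)).mdifferentiableAt (χ.open_source.mem_nhds hy.2)
    have := jac_mul_eq_one hs h1 (by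
      filter_upwards [χ.open_source.mem_nhds hy.2] with w hw
      exact χ.left_inv hw)
    intro h0
    rw [h0, mul_zero] at this
    exact zero_ne_one this
  obtain ⟨e, hze, heU, hee, -⟩ := Pool.Agent.Helper64.SP.exists_inv hU hF
    (show z ∈ V ∩ ψ ⁻¹' χ.source from ⟨hz, mem_chart_source _ _⟩) hdet
  exact ⟨e, hze, fun x hx => (heU hx).1, fun x hx => (heU hx).2, hee⟩

/-- A local parametrization is locally injective. -/
theorem par_injOn {V : Set (Cn n)} {ψ : Cn n → M} (h : Par n ψ V) {z : Cn n} (hz : z ∈ V) :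
    ∃ W ⊆ V, IsOpen W ∧ z ∈ W ∧ InjOn ψ W := by
  obtain ⟨e, hze, heV, -, hee⟩ := par_local h hz
  refine ⟨e.source, heV, e.open_source, hze, fun x hx y hy hxy => ?_⟩
  refine e.injOn hx hy ?_
  rw [hee, hee, hxy]

/-- A local parametrization is open. -/
theorem par_open {V : Set (Cn n)} {ψ : Cn n → M} (h : Par n ψ V) : IsOpen (ψ '' V) := by
  rw [isOpen_iff_mem_nhds]
  rintro _ ⟨z, hz, rfl⟩
  obtain ⟨e, hze, heV, hes, hee⟩ := par_local h hz
  set χ := chartAt (Fin n → ℂ) (ψ z) with hχ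
  have hsub : e.target ⊆ χ.symm.source := by
    intro y hy
    have h1 := e.right_inv hy
    rw [hee] at h1
    rw [← h1]
    exact χ.map_source (hes _ (e.map_target hy))
  have ho : IsOpen (χ.symm '' e.target) :=
    χ.symm.isOpen_image_of_subset_source e.open_target hsub
  refine Filter.mem_of_superset (ho.mem_nhds ?_) ?_
  · refine ⟨e z, e.map_source hze, ?_⟩
    rw [hee]
    exact χ.left_inv (hes z hze)
  · rintro _ ⟨y, hy, rfl⟩
    refine ⟨e.symm y, heV (e.map_target hy), ?_⟩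
    have h1 := e.right_inv hy
    rw [hee] at h1
    rw [← h1]
    rw [χ.left_inv (hes _ (e.map_target hy))]
    rw [h1]

end basics

theorem parb : S_PARB.{u, v} := by
  intro b G M _ _ _ _ _ _ h v hD
  have hγ : ∀ (γ : G) (x : M), jac (b + 1) (fun y : M => γ • y) x ≠ 0 :=
    fun γ x => jac_smul_ne_zero hD.act.holo γ x
  refine ⟨?_, ?_, ?_, ?_, ?_⟩
  · intro V V' ψ φ hψ hV' hφ hmaps hdet
    have hm : ∀ x ∈ V', MDifferentiableAt 𝓘(ℂ, Fin (b + 1) → ℂ) 𝓘(ℂ, Fin (b + 1) → ℂ) ψ (φ x) :=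
      fun x hx => hψ.1.2.mdifferentiableAt (hψ.1.1.mem_nhds (hmaps hx))
    have hmφ : ∀ x ∈ V', MDifferentiableAt 𝓘(ℂ, Fin (b + 1) → ℂ) 𝓘(ℂ, Fin (b + 1) → ℂ) φ x :=
      fun x hx => mdifferentiableAt_iff_differentiableAt.2 (hφ.differentiableAt (hV'.mem_nhds hx))
    have hj : ∀ x ∈ V', jac (b + 1) (ψ ∘ φ) x = jac (b + 1) ψ (φ x) * (fderiv ℂ φ x).det := by
      intro x hx
      rw [jac_comp (hm x hx) (hmφ x hx), jac_eq_fderiv]
    refine ⟨⟨⟨hV', fun x hx => ((hm x hx).comp x (hmφ x hx)).mdifferentiableWithinAt⟩,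
      fun x hx => ?_⟩, fun x hx => ⟨hj x hx, ?_⟩⟩
    · rw [hj x hx]
      exact mul_ne_zero (hψ.2 _ (hmaps hx)) (hdet x hx)
    · have hne2 : ‖(fderiv ℂ φ x).det‖ ^ 2 ≠ 0 :=
        pow_ne_zero _ (norm_ne_zero_iff.2 (hdet x hx))
      have hne1 : v (ψ (φ x)) * ‖jac (b + 1) ψ (φ x)‖ ^ 2 ≠ 0 :=
        mul_ne_zero (hD.met.pos _).ne' (pow_ne_zero _ (norm_ne_zero_iff.2 (hψ.2 _ (hmaps hx))))
      simp only [lpot]
      rw [← Real.log_mul hne1 hne2, hj x hx, norm_mul, mul_pow, mul_assoc]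
      rfl
  · intro γ V ψ hψ
    have hm : ∀ x ∈ V, MDifferentiableAt 𝓘(ℂ, Fin (b + 1) → ℂ) 𝓘(ℂ, Fin (b + 1) → ℂ) ψ x :=
      fun x hx => hψ.1.2.mdifferentiableAt (hψ.1.1.mem_nhds hx)
    have hj : ∀ x ∈ V, jac (b + 1) (fun y => γ • ψ y) x =
        jac (b + 1) (fun y : M => γ • y) (ψ x) * jac (b + 1) ψ x := fun x hx =>
      jac_comp (g := fun y : M => γ • y) (f := ψ) (hD.act.holo γ (ψ x)) (hm x hx)
    refine ⟨⟨⟨hψ.1.1, fun x hx => ((hD.act.holo γ (ψ x)).comp x (hm x hx)).mdifferentiableWithinAt⟩,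
      fun x hx => ?_⟩, fun x hx => ?_⟩
    · rw [hj x hx]
      exact mul_ne_zero (hγ _ _) (hψ.2 x hx)
    · simp only [lpot]
      rw [hj x hx, norm_mul, mul_pow, ← mul_assoc, hD.vinv γ (ψ x)]
  · intro V V' ψ ψ' hψ hψ' γ x hx x' hx' hxx
    obtain ⟨W₁, φ, hW₁, hxW₁, hW₁V, hφ, hφV, hφx, hdet, heq, -⟩ :=
      Pool.Agent.Helper64.SP.transition hD hψ hψ' hx hx' γ hxx.symm
    obtain ⟨W, hWV, hWo, hxW, hWi⟩ := par_injOn hψ' hx'
    obtain ⟨U₁, hU₁W, hU₁o, hxU₁, hU₁i⟩ := par_injOn (par_mono hψ hW₁ hW₁V) hxW₁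
    have hUo : IsOpen (U₁ ∩ φ ⁻¹' W) :=
      (hφ.continuousOn.mono hU₁W).isOpen_inter_preimage hU₁o hWo
    refine ⟨φ, U₁ ∩ φ ⁻¹' W, W, hUo, hWo, ⟨hxU₁, ?_⟩, hxW, fun y hy => hW₁V (hU₁W hy.1), hWV,
      hφ.mono fun y hy => hU₁W hy.1, ?_, fun y hy => hy.2, hφx,
      fun y hy => hdet y (hU₁W hy.1), ?_⟩
    · show φ x ∈ W
      rw [hφx]
      exact hxW
    · intro y hy y' hy' hyy
      refine hU₁i hy.1 hy'.1 ?_
      have h1 := heq y (hU₁W hy.1)
      have h2 := heq y' (hU₁W hy'.1)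
      rw [hyy] at h1
      exact MulAction.injective γ (h1.symm.trans h2)
    · intro y hy y' hy'
      constructor
      · intro h1
        rw [← heq y (hU₁W hy.1)] at h1
        exact (hWi hy.2 hy' h1).symm
      · rintro rfl
        exact (heq y (hU₁W hy.1)).symm
  · intro V ψ hψ U hU hUo
    exact par_open (par_mono hψ hUo hU)
  · intro γ
    exact (hD.act.holo γ).continuous

end Pool.Agent.Helper4.SP
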